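import Pool.Agent.Helper28.NO.Goals

/-!
MP_705522_gt, packet D12: the law `muZ` and the expectation of `max (a Z₁) (b Z₂)`.
-/

set_option autoImplicit false

open MeasureTheory Set Filter Topology

noncomputable section

namespace Pool.Agent.Helper88.NO

open Pool.Agent.Helper28.NO Pool.Agent.Helper7.Proj

/-- unnormalised density -/
def w0 (q z : ℝ) : ℝ := z ^ (q - 2) * Real.exp (-z ^ q)

theorem w0_meas (q : ℝ) : Measurable (w0 q) := by
  unfold w0
  fun_prop

theorem w0_nonneg (q z : ℝ) (hz : 0 ≤ z) : 0 ≤ w0 q z :=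
  mul_nonneg (Real.rpow_nonneg hz _) (Real.exp_pos _).le

theorem w0_pos (q z : ℝ) (hz : 0 < z) : 0 < w0 q z :=
  mul_pos (Real.rpow_pos_of_pos hz _) (Real.exp_pos _)

theorem w0_int (q : ℝ) (hq : 2 < q) : IntegrableOn (w0 q) (Ioi 0) :=
  integrableOn_rpow_mul_exp_neg_rpow (by linarith) (by linarith)

theorem Zd_eq (q : ℝ) : Zd q = ∫ z in Ioi (0 : ℝ), w0 q z := rfl

theorem Zd_pos (q : ℝ) (hq : 2 < q) : 0 < Zd q := by
  rw [Zd_eq, setIntegral_pos_iff_support_of_nonneg_ae ?_ (w0_int q hq)]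
  · have : Ioi (0 : ℝ) ⊆ Function.support (w0 q) ∩ Ioi 0 := fun z hz =>
      ⟨(w0_pos q z hz).ne', hz⟩
    refine lt_of_lt_of_le ?_ (measure_mono this)
    simp
  · exact (ae_restrict_iff' measurableSet_Ioi).2 (Eventually.of_forall fun z hz =>
      w0_nonneg q z (le_of_lt hz))

theorem dens_meas (q : ℝ) :
    Measurable (fun z : ℝ => ENNReal.ofReal (z ^ (q - 2) * Real.exp (-z ^ q) / Zd q)) :=
  ((w0_meas q).div_const _).ennreal_ofReal

theorem int_muZ (q : ℝ) (hq : 2 < q) (f : ℝ → ℝ) :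
    ∫ z, f z ∂(muZ q) = ∫ z in Ioi (0 : ℝ), w0 q z / Zd q * f z := by
  unfold muZ
  rw [integral_withDensity_eq_integral_toReal_smul (dens_meas q)
    (Eventually.of_forall fun _ => ENNReal.ofReal_lt_top)]
  refine setIntegral_congr_fun measurableSet_Ioi fun z hz => ?_
  simp only [smul_eq_mul]
  rw [ENNReal.toReal_ofReal]
  · rfl
  · exact div_nonneg (w0_nonneg q z (le_of_lt hz)) (Zd_pos q hq).le

theorem muZ_prob (q : ℝ) (hq : 2 < q) : IsProbabilityMeasure (muZ q) := by
  constructor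
  unfold muZ
  rw [withDensity_apply _ MeasurableSet.univ, Measure.restrict_univ,
    ← ofReal_integral_eq_lintegral_ofReal]
  · have : ∫ z in Ioi (0 : ℝ), z ^ (q - 2) * Real.exp (-z ^ q) / Zd q = 1 := by
      rw [integral_div]
      exact div_self (Zd_pos q hq).ne'
    rw [this, ENNReal.ofReal_one]
  · exact (w0_int q hq).div_const _
  · exact (ae_restrict_iff' measurableSet_Ioi).2 (Eventually.of_forall fun z hz =>
      div_nonneg (w0_nonneg q z (le_of_lt hz)) (Zd_pos q hq).le)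

theorem muZ_ae_pos (q : ℝ) : ∀ᵐ z ∂(muZ q), 0 < z := by
  unfold muZ
  exact (withDensity_absolutelyContinuous _ _).ae_le (ae_restrict_mem measurableSet_Ioi)

theorem z_w0 (q z : ℝ) (hz : 0 < z) : w0 q z * z = z ^ (q - 1) * Real.exp (-z ^ q) := by
  unfold w0
  have : z ^ (q - 1) = z ^ (q - 2) * z := by
    rw [← Real.rpow_add_one hz.ne']
    congr 1
    ring
  rw [this]
  ring

theorem muZ_int (q : ℝ) (hq : 2 < q) : Integrable (fun z : ℝ => z) (muZ q) := by
  unfold muZ
  rw [integrable_withDensity_iff_integrable_smul' (dens_meas q)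
    (Eventually.of_forall fun _ => ENNReal.ofReal_lt_top)]
  have h1 : IntegrableOn (fun z : ℝ => z ^ (q - 1) * Real.exp (-z ^ q)) (Ioi 0) :=
    integrableOn_rpow_mul_exp_neg_rpow (by linarith) (by linarith)
  refine IntegrableOn.congr_fun (h1.div_const (Zd q)) (fun z hz => ?_) measurableSet_Ioi
  simp only [smul_eq_mul]
  rw [ENNReal.toReal_ofReal, ← z_w0 q z hz]
  · unfold w0
    ring
  · exact div_nonneg (w0_nonneg q z (le_of_lt hz)) (Zd_pos q hq).le

/-- the tail integral -/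
theorem tail (q : ℝ) (hq : 2 < q) (c : ℝ) (hc : 0 ≤ c) :
    ∫ z in Ioi c, z ^ (q - 1) * Real.exp (-z ^ q) = Real.exp (-c ^ q) / q := by
  have hq0 : 0 < q := by linarith
  have hI : IntegrableOn (fun z : ℝ => z ^ (q - 1) * Real.exp (-z ^ q)) (Ioi c) :=
    (integrableOn_rpow_mul_exp_neg_rpow (by linarith : -1 < q - 1) hq0).mono_set
      (Ioi_subset_Ioi hc)
  have h := integral_Ioi_of_hasDerivAt_of_tendsto (a := c) (m := 0)
    (f := fun z : ℝ => -(Real.exp (-z ^ q) / q))
    (f' := fun z : ℝ => z ^ (q - 1) * Real.exp (-z ^ q)) ?_ ?_ hI ?_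
  · rw [h]
    ring
  · refine Continuous.continuousWithinAt ?_
    have : Continuous fun z : ℝ => z ^ q := Real.continuous_rpow_const hq0.le
    fun_prop
  · intro z hz
    have hz0 : z ≠ 0 := (lt_of_le_of_lt hc hz).ne'
    have h1 : HasDerivAt (fun z : ℝ => z ^ q) (q * z ^ (q - 1)) z :=
      Real.hasDerivAt_rpow_const (Or.inl hz0)
    have h2 := ((h1.neg.exp).div_const q).neg
    refine h2.congr_deriv ?_
    simp only [Pi.neg_apply]
    field_simp
  · have h1 : Tendsto (fun z : ℝ => z ^ q) atTop atTop := tendsto_rpow_atTop hq0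
    have h2 : Tendsto (fun z : ℝ => Real.exp (-z ^ q)) atTop (𝓝 0) :=
      Real.tendsto_exp_neg_atTop_nhds_zero.comp h1
    simpa using (h2.div_const q).neg

theorem muZ_tail (q : ℝ) (hq : 2 < q) (c : ℝ) (hc : 0 ≤ c) (P : ℝ → Prop) [DecidablePred P]
    (hP : ∀ z, z ≠ c → (P z ↔ c < z)) :
    ∫ z, (if P z then z else 0) ∂(muZ q) = Real.exp (-c ^ q) / (q * Zd q) := by
  rw [int_muZ q hq]
  have h1 : ∫ z in Ioi (0 : ℝ), w0 q z / Zd q * (if P z then z else 0) =
      ∫ z in Ioi (0 : ℝ), (Ioi c).indicator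
        (fun z => z ^ (q - 1) * Real.exp (-z ^ q) / Zd q) z := by
    refine integral_congr_ae ?_
    have hne : ∀ᵐ z : ℝ ∂(volume.restrict (Ioi (0 : ℝ))), z ≠ c :=
      ae_restrict_of_ae (by
        have : (volume : Measure ℝ) {c} = 0 := measure_singleton c
        exact measure_eq_zero_iff_ae_notMem.1 this)
    filter_upwards [hne, ae_restrict_mem measurableSet_Ioi] with z hz hz0
    by_cases h : c < z
    · rw [if_pos ((hP z hz).2 h), indicator_of_mem (by exact h), ← z_w0 q z hz0]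
      ring
    · rw [if_neg (fun h' => h ((hP z hz).1 h')), indicator_of_notMem (by exact h), mul_zero]
  rw [h1, setIntegral_indicator measurableSet_Ioi]
  have h2 : Ioi (0 : ℝ) ∩ Ioi c = Ioi c := by
    rw [Ioi_inter_Ioi, sup_eq_right.2 hc]
  rw [h2, integral_div, tail q hq c hc]
  have := (Zd_pos q hq).ne'
  have : q ≠ 0 := by linarith
  field_simp

/-- Laplace transform in `z ^ q` -/
theorem muZ_lap (q : ℝ) (hq : 2 < q) (B : ℝ) (hB : 0 ≤ B) :
    ∫ z, Real.exp (-(B * z ^ q)) ∂(muZ q) = (1 + B) ^ (-((q - 1) / q)) := by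
  have hq0 : 0 < q := by linarith
  rw [int_muZ q hq]
  have h1 : ∫ z in Ioi (0 : ℝ), w0 q z / Zd q * Real.exp (-(B * z ^ q)) =
      ∫ z in Ioi (0 : ℝ), (z ^ (q - 2) * Real.exp (-(1 + B) * z ^ q)) / Zd q := by
    refine setIntegral_congr_fun measurableSet_Ioi fun z _ => ?_
    have : -(1 + B) * z ^ q = -z ^ q + -(B * z ^ q) := by ring
    rw [this, Real.exp_add]
    unfold w0
    ring
  have h2 : Zd q = (1 / q) * Real.Gamma ((q - 2 + 1) / q) :=
    integral_rpow_mul_exp_neg_rpow hq0 (by linarith)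
  rw [h1, integral_div, integral_rpow_mul_exp_neg_mul_rpow hq0 (by linarith) (by linarith),
    mul_assoc, ← h2, mul_div_assoc, div_self (Zd_pos q hq).ne', mul_one]
  congr 1
  ring

theorem goalD1 : GD1 := by
  intro q hq
  refine ⟨Zd_pos q hq, muZ_prob q hq, muZ_ae_pos q, muZ_int q hq, ?_, ?_⟩
  · have h := muZ_tail q hq 0 le_rfl (fun z => 0 < z) (fun z _ => Iff.rfl)
    rw [Real.zero_rpow (by linarith), neg_zero, Real.exp_zero] at h
    rw [← h]
    refine integral_congr_ae ?_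
    filter_upwards [muZ_ae_pos q] with z hz
    rw [if_pos hz]
  · intro t
    unfold phi ph
    rw [int_muZ q hq, ← integral_div]
    refine setIntegral_congr_fun measurableSet_Ioi fun z _ => ?_
    show Real.cos (t * z) * w0 q z / Zd q = w0 q z / Zd q * Real.cos (t * z)
    ring

/-- `E[a Z₁ ; b Z₂ < a Z₁]`, for a relation `P` which is `<` except on a null set -/
theorem first (q : ℝ) (hq : 2 < q) (a b : ℝ) (ha : 0 < a) (hb : 0 < b) (P : ℝ → ℝ → Prop)
    [∀ x y, Decidable (P x y)] (hP : ∀ x y, x ≠ y → (P x y ↔ x < y))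
    (hPm : MeasurableSet {p : ℝ × ℝ | P (b * p.2) (a * p.1)}) :
    ∫ p : ℝ × ℝ, (if P (b * p.2) (a * p.1) then a * p.1 else 0) ∂((muZ q).prod (muZ q)) =
      a ^ q * (a ^ q + b ^ q) ^ (-((q - 1) / q)) / (q * Zd q) ∧
    Integrable (fun p : ℝ × ℝ => if P (b * p.2) (a * p.1) then a * p.1 else 0)
      ((muZ q).prod (muZ q)) := by
  have hq0 : 0 < q := by linarith
  have hZ := Zd_pos q hq
  have := muZ_prob q hq
  have i1 : Integrable (fun p : ℝ × ℝ => a * p.1) ((muZ q).prod (muZ q)) :=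
    ((muZ_int q hq).comp_fst (muZ q)).const_mul a
  have hint : Integrable (fun p : ℝ × ℝ => if P (b * p.2) (a * p.1) then a * p.1 else 0)
      ((muZ q).prod (muZ q)) := by
    refine i1.mono' ?_ ?_
    · have : Measurable (fun p : ℝ × ℝ => if P (b * p.2) (a * p.1) then a * p.1 else 0) :=
        Measurable.ite hPm (by fun_prop) measurable_const
      exact this.aestronglyMeasurable
    · have hpos : ∀ᵐ p : ℝ × ℝ ∂((muZ q).prod (muZ q)), 0 < p.1 :=
        Measure.quasiMeasurePreserving_fst.ae (muZ_ae_pos q)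
      filter_upwards [hpos] with p hp
      split_ifs
      · rw [Real.norm_of_nonneg (mul_pos ha hp).le]
      · rw [norm_zero]
        exact (mul_pos ha hp).le
  refine ⟨?_, hint⟩
  rw [integral_prod_symm _ hint]
  have h1 : ∀ᵐ y ∂(muZ q), ∫ x, (if P (b * y) (a * x) then a * x else 0) ∂(muZ q) =
      a / (q * Zd q) * Real.exp (-((b / a) ^ q * y ^ q)) := by
    filter_upwards [muZ_ae_pos q] with y hy
    have h2 : ∀ x : ℝ, (if P (b * y) (a * x) then a * x else 0) =
        a * (if P (b * y) (a * x) then x else 0) := by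
      intro x
      split_ifs <;> ring
    simp_rw [h2]
    have hc : 0 ≤ b / a * y := by positivity
    rw [integral_const_mul, muZ_tail q hq (b / a * y) hc (fun x => P (b * y) (a * x)) ?_]
    · rw [Real.mul_rpow (by positivity) hy.le]
      ring
    · intro x hx
      have hne : b * y ≠ a * x := by
        intro h
        apply hx
        rw [div_mul_eq_mul_div, h]
        field_simp
      rw [hP _ _ hne, div_mul_eq_mul_div, div_lt_iff₀ ha, mul_comm a x]
  rw [integral_congr_ae h1, integral_const_mul, muZ_lap q hq _ (by positivity)]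
  have hs : 1 + (b / a) ^ q = (a ^ q + b ^ q) / a ^ q := by
    rw [Real.div_rpow hb.le ha.le]
    have : a ^ q ≠ 0 := (Real.rpow_pos_of_pos ha q).ne'
    field_simp
  have haq : 0 < a ^ q := Real.rpow_pos_of_pos ha q
  have hbq : 0 < b ^ q := Real.rpow_pos_of_pos hb q
  rw [hs, Real.div_rpow (by positivity) haq.le, ← Real.rpow_mul ha.le]
  have e1 : q * -((q - 1) / q) = 1 - q := by
    field_simp
    ring
  rw [e1, Real.rpow_sub ha, Real.rpow_one]
  field_simp

theorem goalD2 : GD2 := by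
  intro q hq a b ha hb
  have hq0 : 0 < q := by linarith
  have hZ := Zd_pos q hq
  have := muZ_prob q hq
  have hm : ∫ z, z ∂(muZ q) = 1 / (q * Zd q) := (goalD1 q hq).2.2.2.2.1
  have hp1 : ∀ᵐ p : ℝ × ℝ ∂((muZ q).prod (muZ q)), 0 < p.1 :=
    Measure.quasiMeasurePreserving_fst.ae (muZ_ae_pos q)
  have hp2 : ∀ᵐ p : ℝ × ℝ ∂((muZ q).prod (muZ q)), 0 < p.2 :=
    Measure.quasiMeasurePreserving_snd.ae (muZ_ae_pos q)
  rcases ha.eq_or_lt with ha' | ha'
  · subst ha'
    have h1 : ∫ p : ℝ × ℝ, max (0 * p.1) (b * p.2) ∂((muZ q).prod (muZ q)) =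
        ∫ p : ℝ × ℝ, b * p.2 ∂((muZ q).prod (muZ q)) := by
      refine integral_congr_ae ?_
      filter_upwards [hp2] with p hp
      rw [zero_mul, max_eq_right (mul_nonneg hb hp.le)]
    rw [h1, integral_const_mul]
    have h2 : ∫ p : ℝ × ℝ, p.2 ∂((muZ q).prod (muZ q)) = ∫ z, z ∂(muZ q) := by
      rw [integral_fun_snd (fun z : ℝ => z)]
      simp
    rw [h2, hm, Real.zero_rpow hq0.ne', zero_add, ← Real.rpow_mul hb,
      mul_one_div_cancel hq0.ne', Real.rpow_one]
    ring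
  rcases hb.eq_or_lt with hb' | hb'
  · subst hb'
    have h1 : ∫ p : ℝ × ℝ, max (a * p.1) (0 * p.2) ∂((muZ q).prod (muZ q)) =
        ∫ p : ℝ × ℝ, a * p.1 ∂((muZ q).prod (muZ q)) := by
      refine integral_congr_ae ?_
      filter_upwards [hp1] with p hp
      rw [zero_mul, max_eq_left (mul_nonneg ha hp.le)]
    rw [h1, integral_const_mul]
    have h2 : ∫ p : ℝ × ℝ, p.1 ∂((muZ q).prod (muZ q)) = ∫ z, z ∂(muZ q) := by
      rw [integral_fun_fst (fun z : ℝ => z)]
      simp
    rw [h2, hm, Real.zero_rpow hq0.ne', add_zero, ← Real.rpow_mul ha,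
      mul_one_div_cancel hq0.ne', Real.rpow_one]
    ring
  classical
  have F1 := first q hq a b ha' hb' (fun x y => x < y) (fun x y _ => Iff.rfl)
    (measurableSet_lt (by fun_prop) (by fun_prop))
  have F2 := first q hq b a hb' ha' (fun x y => x ≤ y) (fun x y h => ⟨fun h' => lt_of_le_of_ne h' h,
    le_of_lt⟩) (measurableSet_le (by fun_prop) (by fun_prop))
  have hsw : ∫ p : ℝ × ℝ, (if a * p.1 ≤ b * p.2 then b * p.2 else 0) ∂((muZ q).prod (muZ q)) =
      ∫ p : ℝ × ℝ, (if a * p.2 ≤ b * p.1 then b * p.1 else 0) ∂((muZ q).prod (muZ q)) :=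
    (integral_prod_swap (μ := muZ q) (ν := muZ q)
      (fun p : ℝ × ℝ => if a * p.1 ≤ b * p.2 then b * p.2 else 0)).symm
  have hi2 : Integrable (fun p : ℝ × ℝ => if a * p.1 ≤ b * p.2 then b * p.2 else 0)
      ((muZ q).prod (muZ q)) := F2.2.swap
  have hdec : ∫ p : ℝ × ℝ, max (a * p.1) (b * p.2) ∂((muZ q).prod (muZ q)) =
      ∫ p : ℝ × ℝ, ((if b * p.2 < a * p.1 then a * p.1 else 0) +
        (if a * p.1 ≤ b * p.2 then b * p.2 else 0)) ∂((muZ q).prod (muZ q)) := by
    congr 1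
    funext p
    rcases lt_or_ge (b * p.2) (a * p.1) with h | h
    · rw [if_pos h, if_neg (not_le.2 h), max_eq_left h.le, add_zero]
    · rw [if_neg (not_lt.2 h), if_pos h, max_eq_right h, zero_add]
  rw [hdec, integral_add F1.2 hi2, hsw, F1.1, F2.1, ← add_div]
  congr 1
  have haq : 0 < a ^ q := Real.rpow_pos_of_pos ha' q
  have hbq : 0 < b ^ q := Real.rpow_pos_of_pos hb' q
  rw [add_comm (b ^ q) (a ^ q), ← add_mul]
  have hs : 0 < a ^ q + b ^ q := by positivity
  conv_lhs => rw [← Real.rpow_one (a ^ q + b ^ q)]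
  rw [← Real.rpow_mul hs.le, ← Real.rpow_add hs]
  congr 1
  field_simp
  ring

end Pool.Agent.Helper88.NO
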