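import Pool.Agent.Helper28.NO.Goals

/-!
MP_705522_gt, packet D4: the facts `Base q (mu q)`.
-/

set_option autoImplicit false

open MeasureTheory Set Filter Topology

noncomputable section

namespace Pool.Agent.Helper88.NO

open Pool.Agent.Helper28.NO Pool.Agent.Helper7.Proj

/-! ### elementary integrals -/

theorem int_lin (A B u v : ℝ) : ∫ w in u..v, (A + B * w) =
    A * (v - u) + B * ((v ^ 2 - u ^ 2) / 2) := by
  rw [intervalIntegral.integral_add ((by fun_prop : Continuous fun _ : ℝ => A).intervalIntegrable _ _)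
    ((by fun_prop : Continuous fun w : ℝ => B * w).intervalIntegrable _ _),
    intervalIntegral.integral_const, intervalIntegral.integral_const_mul, integral_id, smul_eq_mul]
  ring

theorem prim_low (R x : ℝ) (hx : 0 ≤ x) (hxR : x ≤ R) :
    ∫ w in (0 : ℝ)..x, max 0 (R - w) = R * x - x ^ 2 / 2 := by
  have h1 : ∫ w in (0 : ℝ)..x, max 0 (R - w) = ∫ w in (0 : ℝ)..x, (R + -1 * w) := by
    refine intervalIntegral.integral_congr fun w hw => ?_
    rw [uIcc_of_le hx] at hw
    show max 0 (R - w) = R + -1 * w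
    rw [max_eq_right (by linarith [hw.2])]
    ring
  rw [h1, int_lin]
  ring

theorem prim_high (R x : ℝ) (hR : 0 ≤ R) (hRx : R ≤ x) :
    ∫ w in (0 : ℝ)..x, max 0 (R - w) = R ^ 2 / 2 := by
  have hc : Continuous fun w : ℝ => max 0 (R - w) := by fun_prop
  rw [← intervalIntegral.integral_add_adjacent_intervals (hc.intervalIntegrable 0 R)
    (hc.intervalIntegrable R x), prim_low R R hR le_rfl]
  have h1 : ∫ w in R..x, max 0 (R - w) = ∫ w in R..x, (0 : ℝ) := by
    refine intervalIntegral.integral_congr fun w hw => ?_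
    rw [uIcc_of_le hRx] at hw
    show max 0 (R - w) = 0
    rw [max_eq_left (by linarith [hw.1])]
  rw [h1, intervalIntegral.integral_zero]
  ring

/-! ### abstract part -/

section Abs

variable {Ω : Type} [MeasurableSpace Ω] {ν : Measure Ω} {X : Ω → ℝ} {m : ℝ}

/-- the abstract hypothesis -/
structure HX (ν : Measure Ω) (X : Ω → ℝ) (m : ℝ) : Prop where
  prob : IsProbabilityMeasure ν
  int : Integrable X ν
  nn : ∀ p, 0 ≤ X p
  mean : ∫ p, X p ∂ν = m
  mpos : 0 < m
  comp : ∀ (β : ℝ → ℝ) (K : ℝ), Continuous β →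
    (∀ w, |β w| ≤ K * (1 + |w|)) → (∀ L : ℝ, 0 ≤ L → 0 ≤ ∫ w in (0 : ℝ)..L, β w) →
    0 ≤ ∫ p, β (X p) ∂ν

theorem int_max (H : HX ν X m) (r : ℝ) : Integrable (fun p => max 0 (r - X p)) ν := by
  have := H.prob
  exact (integrable_const (0 : ℝ)).sup ((integrable_const r).sub H.int)

theorem U1 (H : HX ν X m) (R : ℝ) (hR : 0 ≤ R) (hR2 : R ≤ 2 * m) :
    R ^ 2 / (4 * m) ≤ ∫ p, max 0 (R - X p) ∂ν := by
  have := H.prob
  have hm := H.mpos
  set L : ℝ := 2 * m with hL
  have hL0 : 0 < L := by positivity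
  have h := H.comp (fun w => max 0 (R - w) + (-(R ^ 2 / L) + R ^ 2 / L ^ 2 * w))
    (R + 1 + R ^ 2 / L + R ^ 2 / L ^ 2) (by fun_prop) ?_ ?_
  · have e1 : ∫ p, (max 0 (R - X p) + (-(R ^ 2 / L) + R ^ 2 / L ^ 2 * X p)) ∂ν =
        ∫ p, max 0 (R - X p) ∂ν + (-(R ^ 2 / L) + R ^ 2 / L ^ 2 * m) := by
      have i1 : Integrable (fun _ : Ω => -(R ^ 2 / L)) ν := integrable_const _
      have i2 : Integrable (fun p => R ^ 2 / L ^ 2 * X p) ν := H.int.const_mul _
      have i3 : Integrable (fun p => -(R ^ 2 / L) + R ^ 2 / L ^ 2 * X p) ν := i1.add i2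
      rw [integral_add (int_max H R) i3, integral_add i1 i2, integral_const_mul, H.mean]
      simp
    rw [e1] at h
    have e2 : R ^ 2 / (4 * m) = R ^ 2 / L - R ^ 2 / L ^ 2 * m := by
      rw [hL]
      field_simp
      ring
    linarith
  · intro w
    have h1 : |max 0 (R - w)| ≤ R + |w| := by
      rw [abs_of_nonneg (le_max_left _ _)]
      refine max_le (by positivity) ?_
      have := neg_abs_le w
      linarith
    have h2 : |max 0 (R - w) + (-(R ^ 2 / L) + R ^ 2 / L ^ 2 * w)| ≤
        |max 0 (R - w)| + (R ^ 2 / L + R ^ 2 / L ^ 2 * |w|) := by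
      refine (abs_add_le _ _).trans (add_le_add le_rfl ((abs_add_le _ _).trans ?_))
      rw [abs_neg, abs_of_nonneg (by positivity : 0 ≤ R ^ 2 / L), abs_mul,
        abs_of_nonneg (by positivity : 0 ≤ R ^ 2 / L ^ 2)]
    have h3 : (R + 1 + R ^ 2 / L + R ^ 2 / L ^ 2) * (1 + |w|) =
        (R + |w|) + (R ^ 2 / L + R ^ 2 / L ^ 2 * |w|) + (1 + R * |w| + R ^ 2 / L * |w| +
          R ^ 2 / L ^ 2) := by ring
    have h4 : 0 ≤ 1 + R * |w| + R ^ 2 / L * |w| + R ^ 2 / L ^ 2 := by positivity
    linarith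
  · -- the primitive is nonnegative
    intro x hx
    rw [intervalIntegral.integral_add
      ((by fun_prop : Continuous fun w : ℝ => max 0 (R - w)).intervalIntegrable _ _)
      ((by fun_prop : Continuous fun w : ℝ =>
        -(R ^ 2 / L) + R ^ 2 / L ^ 2 * w).intervalIntegrable _ _), int_lin]
    rcases le_total x R with hxR | hxR
    · rw [prim_low R x hx hxR]
      -- x * (affine), nonnegative at 0 and R
      have e3 : R * x - x ^ 2 / 2 + (-(R ^ 2 / L) * (x - 0) +
          R ^ 2 / L ^ 2 * ((x ^ 2 - 0 ^ 2) / 2)) =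
          x * (((L - R) * R / L) + x * (R ^ 2 / L ^ 2 - 1) / 2) := by
        field_simp
        ring
      rw [e3]
      refine mul_nonneg hx ?_
      have e4 : ((L - R) * R / L) + x * (R ^ 2 / L ^ 2 - 1) / 2 =
          (L - R) * (2 * R * L - x * (L + R)) / (2 * L ^ 2) := by
        field_simp
        ring
      rw [e4]
      refine div_nonneg (mul_nonneg (by linarith) ?_) (by positivity)
      nlinarith
    · rw [prim_high R x hR hxR]
      have e3 : R ^ 2 / 2 + (-(R ^ 2 / L) * (x - 0) + R ^ 2 / L ^ 2 * ((x ^ 2 - 0 ^ 2) / 2)) =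
          R ^ 2 / 2 * (1 - x / L) ^ 2 := by
        field_simp
        ring
      rw [e3]
      positivity

/-- the lower bound for `E (r - X)₊` -/
def nn (m w : ℝ) : ℝ := ((max 0 w) ^ 2 - (max 0 (w - 2 * m)) ^ 2) / (4 * m)

theorem nn_low (m w : ℝ) (hw : 0 ≤ w) (hw2 : w ≤ 2 * m) : nn m w = w ^ 2 / (4 * m) := by
  unfold nn
  rw [max_eq_right hw, max_eq_left (by linarith)]
  ring

theorem nn_high (m w : ℝ) (hm : 0 < m) (hw2 : 2 * m ≤ w) : nn m w = w - m := by
  unfold nn
  rw [max_eq_right (by linarith), max_eq_right (by linarith)]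
  field_simp
  ring

theorem nn_le (H : HX ν X m) (r : ℝ) (hr : 0 ≤ r) : nn m r ≤ ∫ p, max 0 (r - X p) ∂ν := by
  have := H.prob
  rcases le_total r (2 * m) with h | h
  · rw [nn_low m r hr h]
    exact U1 H r hr h
  · rw [nn_high m r H.mpos h]
    have h1 : ∫ p, (r - X p) ∂ν = r - m := by
      rw [integral_sub (integrable_const _) H.int, H.mean]
      simp
    rw [← h1]
    exact integral_mono ((integrable_const r).sub H.int) (int_max H r) fun p => le_max_right _ _

theorem nn_abs (m w : ℝ) (hm : 0 < m) : |nn m w| ≤ |w| := by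
  rcases le_total w 0 with h | h
  · have : nn m w = 0 := by
      unfold nn
      rw [max_eq_left h, max_eq_left (by linarith)]
      ring
    rw [this, abs_zero]
    exact abs_nonneg w
  · rw [abs_of_nonneg h]
    rcases le_total w (2 * m) with h2 | h2
    · rw [nn_low m w h h2, abs_of_nonneg (by positivity), div_le_iff₀ (by positivity)]
      nlinarith
    · rw [nn_high m w hm h2, abs_of_nonneg (by linarith)]
      linarith

theorem nn_cont (m : ℝ) : Continuous (nn m) := by
  unfold nn
  fun_prop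

theorem U2 (H : HX ν X m) : m / 3 ≤ ∫ p, nn m (X p) ∂ν := by
  have := H.prob
  have hm := H.mpos
  have hnn : Integrable (fun p => nn m (X p)) ν := by
    refine H.int.norm.mono' ((nn_cont m).comp_aestronglyMeasurable H.int.aestronglyMeasurable)
      (Eventually.of_forall fun p => ?_)
    rw [Real.norm_eq_abs, Real.norm_eq_abs]
    exact nn_abs m _ hm
  have h := H.comp (fun w => nn m w + (m / 3 + -(2 / 3) * w)) (5 / 3 + m / 3)
    ((nn_cont m).add (by fun_prop)) ?_ ?_
  · have e1 : ∫ p, (nn m (X p) + (m / 3 + -(2 / 3) * X p)) ∂ν =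
        ∫ p, nn m (X p) ∂ν + (m / 3 + -(2 / 3) * m) := by
      have i1 : Integrable (fun _ : Ω => m / 3) ν := integrable_const _
      have i2 : Integrable (fun p => -(2 / 3) * X p) ν := H.int.const_mul _
      have i3 : Integrable (fun p => m / 3 + -(2 / 3) * X p) ν := i1.add i2
      rw [integral_add hnn i3, integral_add i1 i2, integral_const_mul, H.mean]
      simp
    rw [e1] at h
    linarith
  · intro w
    have h1 := nn_abs m w hm
    have h2 : |nn m w + (m / 3 + -(2 / 3) * w)| ≤ |nn m w| + (m / 3 + 2 / 3 * |w|) := by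
      refine (abs_add_le _ _).trans (add_le_add le_rfl ((abs_add_le _ _).trans ?_))
      rw [abs_of_nonneg (by positivity : 0 ≤ m / 3), abs_mul]
      norm_num
    have h3 : 0 ≤ |w| := abs_nonneg w
    nlinarith
  · intro x hx
    have hc : Continuous (fun w => nn m w + (m / 3 + -(2 / 3) * w)) :=
      (nn_cont m).add (by fun_prop)
    have hlow : ∀ y, 0 ≤ y → y ≤ 2 * m →
        0 ≤ ∫ w in (0 : ℝ)..y, (nn m w + (m / 3 + -(2 / 3) * w)) := by
      intro y hy hy2
      have e1 : ∫ w in (0 : ℝ)..y, (nn m w + (m / 3 + -(2 / 3) * w)) =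
          ∫ w in (0 : ℝ)..y, (w ^ 2 / (4 * m) + (m / 3 + -(2 / 3) * w)) := by
        refine intervalIntegral.integral_congr fun w hw => ?_
        rw [uIcc_of_le hy] at hw
        show nn m w + (m / 3 + -(2 / 3) * w) = w ^ 2 / (4 * m) + (m / 3 + -(2 / 3) * w)
        rw [nn_low m w hw.1 (hw.2.trans hy2)]
      rw [e1, intervalIntegral.integral_add
        ((by fun_prop : Continuous fun w : ℝ => w ^ 2 / (4 * m)).intervalIntegrable _ _)
        ((by fun_prop : Continuous fun w : ℝ => m / 3 + -(2 / 3) * w).intervalIntegrable _ _),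
        int_lin, intervalIntegral.integral_div, integral_pow]
      have e2 : (y ^ (2 + 1) - 0 ^ (2 + 1)) / ((2 : ℕ) + 1 : ℝ) / (4 * m) +
          (m / 3 * (y - 0) + -(2 / 3) * ((y ^ 2 - 0 ^ 2) / 2)) =
          y / (12 * m) * (y - 2 * m) ^ 2 := by
        push_cast
        field_simp
        ring
      rw [e2]
      positivity
    rcases le_total x (2 * m) with h | h
    · exact hlow x hx h
    · rw [← intervalIntegral.integral_add_adjacent_intervals (hc.intervalIntegrable 0 (2 * m))
        (hc.intervalIntegrable (2 * m) x)]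
      refine add_nonneg (hlow _ (by positivity) le_rfl) ?_
      refine intervalIntegral.integral_nonneg h fun w hw => ?_
      rw [nn_high m w hm hw.1]
      linarith [hw.1]

theorem four_abs (H : HX ν X m) :
    4 / 3 * m ≤ ∫ p : Ω × Ω, max (X p.1) (X p.2) ∂(ν.prod ν) := by
  have := H.prob
  have hm := H.mpos
  have i1 : Integrable (fun p : Ω × Ω => X p.1) (ν.prod ν) := H.int.comp_fst ν
  have i2 : Integrable (fun p : Ω × Ω => X p.2) (ν.prod ν) := H.int.comp_snd ν
  have i3 : Integrable (fun p : Ω × Ω => max (X p.1) (X p.2)) (ν.prod ν) := i1.sup i2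
  rw [integral_prod_symm _ i3]
  have hnn : Integrable (fun p => nn m (X p)) ν := by
    refine H.int.norm.mono' ((nn_cont m).comp_aestronglyMeasurable H.int.aestronglyMeasurable)
      (Eventually.of_forall fun p => ?_)
    rw [Real.norm_eq_abs, Real.norm_eq_abs]
    exact nn_abs m _ hm
  have h1 : ∀ y, m + nn m (X y) ≤ ∫ x, max (X x) (X y) ∂ν := by
    intro y
    have e1 : ∫ x, max (X x) (X y) ∂ν = m + ∫ x, max 0 (X y - X x) ∂ν := by
      rw [← H.mean, ← integral_add H.int (int_max H (X y))]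
      congr 1
      funext x
      rcases le_total (X x) (X y) with h | h
      · rw [max_eq_right h, max_eq_right (by linarith)]
        ring
      · rw [max_eq_left h, max_eq_left (by linarith)]
        ring
    rw [e1]
    have := nn_le H (X y) (H.nn y)
    linarith
  have h2 : ∫ y, (m + nn m (X y)) ∂ν ≤ ∫ y, ∫ x, max (X x) (X y) ∂ν ∂ν :=
    integral_mono ((integrable_const m).add hnn) i3.integral_prod_right h1
  rw [integral_add (integrable_const m) hnn] at h2
  have h3 := U2 H
  simp only [integral_const, probReal_univ, smul_eq_mul, one_mul] at h2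
  linarith

end Abs

/-! ### the concrete measures -/

theorem mu_prod (q : ℝ) [SFinite (muZ q)] : (mu q).prod (mu q) =
    ((muZ q).prod (muZ q)).map (fun p : ℝ × ℝ => (q * Zd q * p.1, q * Zd q * p.2)) := by
  unfold mu
  rw [Measure.map_prod_map _ _ (by fun_prop) (by fun_prop)]
  rfl

theorem int_mu (q : ℝ) [SFinite (muZ q)] (F : ℝ × ℝ → ℝ) (hF : Continuous F) :
    ∫ p, F p ∂((mu q).prod (mu q)) =
      ∫ p : ℝ × ℝ, F (q * Zd q * p.1, q * Zd q * p.2) ∂((muZ q).prod (muZ q)) := by
  rw [mu_prod, integral_map (by fun_prop) hF.aestronglyMeasurable]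

theorem goalD4 : GD4 := by
  intro h1 h2 h3a h3b q hq
  have hq2 : 2 < q := by linarith
  obtain ⟨hZ, hprob, hpos, hint, hmean, _⟩ := h1 q hq2
  have hq0 : 0 < q := by linarith
  set s : ℝ := q * Zd q with hs
  have hs0 : 0 < s := by positivity
  have hc : 1 < cc q := by
    unfold cc
    exact Real.one_lt_rpow (by norm_num) (by positivity)
  have hm0 : 0 < 2 * (cc q - 1) / s := by
    have : 0 < cc q - 1 := by linarith
    positivity
  set m : ℝ := 2 * (cc q - 1) / s with hmd
  set ν : Measure (ℝ × ℝ) := (muZ q).prod (muZ q) with hν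
  have hνp : IsProbabilityMeasure ν := by
    rw [hν]
    infer_instance
  have i1 : Integrable (fun p : ℝ × ℝ => p.1) ν := hint.comp_fst (muZ q)
  have i2 : Integrable (fun p : ℝ × ℝ => p.2) ν := hint.comp_snd (muZ q)
  have hX : HX ν (fun p : ℝ × ℝ => |p.1 - p.2|) m := by
    refine ⟨hνp, (i1.sub i2).abs, fun p => abs_nonneg _, ?_, hm0, h3b q hq2⟩
    have e1 : ∀ p : ℝ × ℝ, |p.1 - p.2| = 2 * max (1 * p.1) (1 * p.2) - (p.1 + p.2) := by
      intro p
      rw [one_mul, one_mul]
      rcases le_total p.1 p.2 with h | h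
      · rw [max_eq_right h, abs_of_nonpos (by linarith)]
        ring
      · rw [max_eq_left h, abs_of_nonneg (by linarith)]
        ring
    have e2 : ∫ p : ℝ × ℝ, p.1 ∂ν = 1 / s := by
      rw [hν, integral_fun_fst (fun z : ℝ => z), hmean]
      simp
    have e3 : ∫ p : ℝ × ℝ, p.2 ∂ν = 1 / s := by
      rw [hν, integral_fun_snd (fun z : ℝ => z), hmean]
      simp
    have e4 := h2 q hq2 1 1 zero_le_one zero_le_one
    rw [← hs, ← hν, Real.one_rpow] at e4
    have e5 : ((1 : ℝ) + 1) ^ (1 / q) = cc q := by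
      unfold cc
      norm_num
    rw [e5] at e4
    have i3 : Integrable (fun p : ℝ × ℝ => max (1 * p.1) (1 * p.2)) ν :=
      (i1.const_mul 1).sup (i2.const_mul 1)
    have i4 : Integrable (fun p : ℝ × ℝ => p.1 + p.2) ν := i1.add i2
    simp_rw [e1]
    rw [integral_sub (i3.const_mul 2) i4, integral_const_mul, e4, integral_add i1 i2, e2, e3, hmd]
    ring
  refine ⟨hq, ?_, ?_, ?_, ?_, ?_, ?_, ?_⟩
  · exact Measure.isProbabilityMeasure_map (by fun_prop)
  · unfold mu
    refine (ae_map_iff (f := fun z => q * Zd q * z) (μ := muZ q) (by fun_prop)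
      (measurableSet_Ioi : MeasurableSet {y : ℝ | 0 < y})).2 ?_
    filter_upwards [hpos] with z hz
    positivity
  · unfold mu
    rw [integrable_map_measure (by fun_prop) (by fun_prop)]
    exact hint.const_mul _
  · unfold mu
    rw [integral_map (by fun_prop) (by fun_prop), integral_const_mul, hmean]
    exact mul_one_div_cancel hs0.ne'
  · intro a b ha hb
    rw [int_mu q _ (by fun_prop)]
    have e1 : ∀ p : ℝ × ℝ, max (a * (s * p.1)) (b * (s * p.2)) =
        max ((a * s) * p.1) ((b * s) * p.2) := by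
      intro p
      rw [← mul_assoc a s p.1, ← mul_assoc b s p.2]
    show ∫ p : ℝ × ℝ, max (a * (s * p.1)) (b * (s * p.2)) ∂ν = _
    simp_rw [e1]
    rw [h2 q hq2 (a * s) (b * s) (by positivity) (by positivity), ← hs,
      Real.mul_rpow ha hs0.le, Real.mul_rpow hb hs0.le, ← add_mul,
      Real.mul_rpow (add_nonneg (Real.rpow_nonneg ha _) (Real.rpow_nonneg hb _))
        (Real.rpow_nonneg hs0.le _), ← Real.rpow_mul hs0.le, mul_one_div_cancel hq0.ne',
      Real.rpow_one, mul_div_assoc, div_self hs0.ne', mul_one]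
  · intro a b ρ hb hba hρ hρ2
    have ha : 0 < a := lt_of_lt_of_le hb hba
    have hh : 0 < hm q a b := by
      unfold Pool.Agent.Helper28.NO.hm
      refine Real.rpow_pos_of_pos ?_ _
      have h1 := Real.rpow_pos_of_pos ha (-q)
      have h2 := Real.rpow_pos_of_pos hb (-q)
      positivity
    set h : ℝ := hm q a b with hhd
    set lam : ℝ := (h ^ 2 / (a * b)) ^ (q - 1) with hlam
    have hlam0 : 0 ≤ lam := Real.rpow_nonneg (by positivity) _
    have hc1 : 0 < cc q - 1 := by linarith
    rw [int_mu q _ (by fun_prop)]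
    show _ ≤ ∫ p : ℝ × ℝ, max 0 (ρ - |a * (s * p.1) - b * (s * p.2)|) ∂ν
    have e1 : ∀ p : ℝ × ℝ, max 0 (ρ - |a * (s * p.1) - b * (s * p.2)|) =
        s * max 0 (ρ / s - |a * p.1 - b * p.2|) := by
      intro p
      rw [mul_max_of_nonneg _ _ hs0.le, mul_zero, mul_sub, mul_div_cancel₀ _ hs0.ne']
      have : a * (s * p.1) - b * (s * p.2) = s * (a * p.1 - b * p.2) := by ring
      rw [this, abs_mul, abs_of_pos hs0]
    simp_rw [e1]
    rw [integral_const_mul]
    have g1 := h3a q hq2 a b (ρ / s) ha hb (by positivity)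
    rw [← hhd, ← hlam, ← hν] at g1
    have e2 : ∀ p : ℝ × ℝ, max 0 (ρ / s - h * |p.1 - p.2|) =
        h * max 0 (ρ / (s * h) - |p.1 - p.2|) := by
      intro p
      rw [mul_max_of_nonneg _ _ hh.le, mul_zero, mul_sub]
      congr 2
      field_simp
    simp_rw [e2] at g1
    rw [integral_const_mul] at g1
    have hR0 : 0 ≤ ρ / (s * h) := by positivity
    have hR2 : ρ / (s * h) ≤ 2 * m := by
      rw [hmd, div_le_iff₀ (by positivity)]
      have : 2 * (2 * (cc q - 1) / s) * (s * h) = 4 * h * (cc q - 1) := by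
        field_simp
        ring
      rw [this]
      exact hρ2
    have g2 := U1 hX (ρ / (s * h)) hR0 hR2
    have g3 : lam * (h * ((ρ / (s * h)) ^ 2 / (4 * m))) ≤
        lam * (h * ∫ p : ℝ × ℝ, max 0 (ρ / (s * h) - |p.1 - p.2|) ∂ν) :=
      mul_le_mul_of_nonneg_left (mul_le_mul_of_nonneg_left g2 hh.le) hlam0
    have g4 := mul_le_mul_of_nonneg_left (g3.trans g1) hs0.le
    refine le_trans (le_of_eq ?_) g4
    rw [hmd]
    have hc1' : cc q - 1 ≠ 0 := hc1.ne'
    field_simp
    ring
  · have e0 : ((mu q).prod (mu q)).prod ((mu q).prod (mu q)) =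
        (ν.prod ν).map (Prod.map (fun p : ℝ × ℝ => (q * Zd q * p.1, q * Zd q * p.2))
          (fun p : ℝ × ℝ => (q * Zd q * p.1, q * Zd q * p.2))) := by
      rw [mu_prod, Measure.map_prod_map _ _ (by fun_prop) (by fun_prop)]
    have hcont : Continuous (fun p : (ℝ × ℝ) × (ℝ × ℝ) =>
        max |p.1.1 - p.1.2| |p.2.1 - p.2.2|) := by fun_prop
    rw [e0, integral_map (by fun_prop) hcont.aestronglyMeasurable]
    show _ ≤ ∫ p : (ℝ × ℝ) × (ℝ × ℝ), max |s * p.1.1 - s * p.1.2| |s * p.2.1 - s * p.2.2|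
      ∂(ν.prod ν)
    have e1 : ∀ p : (ℝ × ℝ) × (ℝ × ℝ), max |s * p.1.1 - s * p.1.2| |s * p.2.1 - s * p.2.2| =
        s * max |p.1.1 - p.1.2| |p.2.1 - p.2.2| := by
      intro p
      have e2 : ∀ x : ℝ, |s * x| = s * |x| := fun x => by rw [abs_mul s x, abs_of_pos hs0]
      rw [mul_max_of_nonneg _ _ hs0.le, ← mul_sub, ← mul_sub, e2, e2]
    simp_rw [e1]
    rw [integral_const_mul]
    have g1 := mul_le_mul_of_nonneg_left (four_abs hX) hs0.le
    refine le_trans (le_of_eq ?_) g1
    rw [hmd]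
    field_simp
    ring

end Pool.Agent.Helper88.NO
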